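import Pool.Agent.Grid3D.Regime1
import Pool.Agent.Grid3D.Regime2
import Pool.Agent.Grid3D.Final

/-!
# Three-dimensional grid drawings in a cube of volume O(kn)
-/

set_option autoImplicit false

open Finset

namespace Pool.Agent.Results.MP_325b7c_co.CubeDrawing

open Pool.Agent.Grid3D

/-- a graph on `Fin n` with an edge has a good placement in a cube of volume `≤ C·k·n` -/
theorem cube_of (hR1 : Regime1) (hR2 : Regime2) :
    ∃ C : ℝ, ∀ (n : ℕ) (G : SimpleGraph (Fin n)) (u₀ v₀ : Fin n), G.Adj u₀ v₀ →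
      ∃ (N : ℕ) (φ : ℕ → Pt), (N : ℝ) ^ 3 ≤ C * (G.edgeSet.ncard : ℝ) * (n : ℝ) ∧
        Good N n (ext G) φ := by
  classical
  obtain ⟨K1, hK1, N1, h1⟩ := hR1
  obtain ⟨K2, hK2, N2, h2⟩ := hR2
  set K : ℝ := max K1 K2 with hK
  have hKpos : 0 < K := lt_max_of_lt_left hK1
  set N0 : ℕ := max (max N1 N2) 2 with hN0
  set C : ℝ := max ((N0 : ℝ) ^ 3) (8 * K) with hC
  have hN02 : 2 ≤ N0 := le_max_right _ _
  have hC0 : 0 ≤ C := le_trans (by positivity) (le_max_left _ _)
  refine ⟨C, fun n G u₀ v₀ huv => ?_⟩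
  have hn1 : 1 ≤ n := by
    have := u₀.2
    omega
  have hk1 : 1 ≤ edgeCount (ext G) n := by
    have hmem : ∀ a b : Fin n, G.Adj a b → (a : ℕ) < b → 1 ≤ edgeCount (ext G) n := by
      intro a b hab hlt
      unfold edgeCount
      rw [Nat.one_le_iff_ne_zero, Ne, Finset.card_eq_zero]
      intro he
      have hm : ((a : ℕ), (b : ℕ)) ∈ ((range n ×ˢ range n).filter
          (fun q : ℕ × ℕ => q.1 < q.2 ∧ (ext G).Adj q.1 q.2)) := by
        rw [Finset.mem_filter]
        refine ⟨?_, hlt, (ext_adj G a b).2 hab⟩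
        rw [Finset.mem_product]
        exact ⟨Finset.mem_range.2 a.2, Finset.mem_range.2 b.2⟩
      have e : ((range n ×ˢ range n).filter
          (fun q : ℕ × ℕ => q.1 < q.2 ∧ (ext G).Adj q.1 q.2)) = ∅ := by
        convert he
      rw [e] at hm
      simp at hm
    rcases lt_trichotomy (u₀ : ℕ) (v₀ : ℕ) with hlt | heq | hgt
    · exact hmem u₀ v₀ huv hlt
    · exact absurd (Fin.ext heq) (G.ne_of_adj huv)
    · exact hmem v₀ u₀ huv.symm hgt
  set k : ℕ := edgeCount (ext G) n with hkdef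
  have hkn : (1 : ℝ) ≤ (k : ℝ) * n := by
    have a1 : (1 : ℝ) ≤ (k : ℝ) := by exact_mod_cast hk1
    have a2 : (1 : ℝ) ≤ (n : ℝ) := by exact_mod_cast hn1
    nlinarith
  have hex : ∃ N : ℕ, N0 ≤ N ∧ K * k * n ≤ (N : ℝ) ^ 3 := by
    obtain ⟨M, hM⟩ := exists_nat_ge (K * k * n)
    refine ⟨max N0 M, le_max_left _ _, ?_⟩
    have hM1 : (1 : ℝ) ≤ ((max N0 M : ℕ) : ℝ) := by
      have : 1 ≤ max N0 M := le_trans (by omega) (le_max_left N0 M)
      exact_mod_cast this
    calc K * k * n ≤ (M : ℝ) := hM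
      _ ≤ ((max N0 M : ℕ) : ℝ) := by exact_mod_cast le_max_right N0 M
      _ ≤ ((max N0 M : ℕ) : ℝ) ^ 3 := le_self_pow₀ hM1 (by norm_num)
  set N : ℕ := Nat.find hex with hN
  obtain ⟨hNge, hNK⟩ := Nat.find_spec hex
  rw [← hN] at hNge hNK
  have hvol : (N : ℝ) ^ 3 ≤ C * (k * n) := by
    by_cases hNeq : N = N0
    · rw [hNeq]
      calc ((N0 : ℝ)) ^ 3 = (N0 : ℝ) ^ 3 * 1 := by ring
        _ ≤ C * (k * n) := by
          apply mul_le_mul (le_max_left _ _) hkn (by norm_num) hC0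
    · have hgt : N0 < N := lt_of_le_of_ne hNge (Ne.symm hNeq)
      have hmin := Nat.find_min hex (m := N - 1) (by rw [← hN]; omega)
      push Not at hmin
      have hlt := hmin (by omega)
      have hcast : ((N - 1 : ℕ) : ℝ) = (N : ℝ) - 1 := by
        rw [Nat.cast_sub (by omega)]; simp
      rw [hcast] at hlt
      have hN2 : (2 : ℝ) ≤ (N : ℝ) := by
        have : 2 ≤ N := by omega
        exact_mod_cast this
      have h8 : (N : ℝ) ^ 3 ≤ 8 * ((N : ℝ) - 1) ^ 3 := by
        have : (N : ℝ) ≤ 2 * ((N : ℝ) - 1) := by linarith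
        calc (N : ℝ) ^ 3 ≤ (2 * ((N : ℝ) - 1)) ^ 3 := pow_le_pow_left₀ (by linarith) this 3
          _ = 8 * ((N : ℝ) - 1) ^ 3 := by ring
      have hkn0 : (0 : ℝ) ≤ (k : ℝ) * n := by linarith
      calc (N : ℝ) ^ 3 ≤ 8 * ((N : ℝ) - 1) ^ 3 := h8
        _ ≤ 8 * (K * k * n) := by linarith
        _ = (8 * K) * (k * n) := by ring
        _ ≤ C * (k * n) := mul_le_mul_of_nonneg_right (le_max_right _ _) hkn0
  have hvol' : (N : ℝ) ^ 3 ≤ C * (G.edgeSet.ncard : ℝ) * (n : ℝ) := by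
    have hle : (k : ℝ) ≤ (G.edgeSet.ncard : ℝ) := by exact_mod_cast edgeCount_le G
    have hn0 : (0 : ℝ) ≤ (n : ℝ) := Nat.cast_nonneg _
    calc (N : ℝ) ^ 3 ≤ C * (k * n) := hvol
      _ ≤ C * ((G.edgeSet.ncard : ℝ) * n) := by
          apply mul_le_mul_of_nonneg_left _ hC0
          exact mul_le_mul_of_nonneg_right hle hn0
      _ = C * (G.edgeSet.ncard : ℝ) * (n : ℝ) := by ring
  have hNpos : 0 < N := by omega
  have hkn0 : (0 : ℝ) ≤ (k : ℝ) * n := by linarith
  by_cases hNB : NBound N n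
  · have hK' : K1 * k * n ≤ (N : ℝ) ^ 3 := by
      refine le_trans ?_ hNK
      have := mul_le_mul_of_nonneg_right (le_max_left K1 K2) hkn0
      calc K1 * k * n = K1 * (k * n) := by ring
        _ ≤ K * (k * n) := this
        _ = K * k * n := by ring
    obtain ⟨φ, hφ⟩ := h1 N (le_trans (le_trans (le_max_left _ _) (le_max_left _ _)) hNge) hNpos
      (ext G) n hNB hK'
    exact ⟨N, φ, hvol', hφ⟩
  · have hK' : K2 * k * n ≤ (N : ℝ) ^ 3 := by
      refine le_trans ?_ hNK
      have := mul_le_mul_of_nonneg_right (le_max_right K1 K2) hkn0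
      calc K2 * k * n = K2 * (k * n) := by ring
        _ ≤ K * (k * n) := this
        _ = K * k * n := by ring
    obtain ⟨φ, hφ⟩ := h2 N (le_trans (le_trans (le_max_right _ _) (le_max_left _ _)) hNge) hNpos
      (ext G) n hNB hk1 hK'
    exact ⟨N, φ, hvol', hφ⟩

/-- **Three-dimensional grid drawings in volume `O(kn)`.**  There is an absolute constant `C` such that
every finite simple graph `G` with `n = Fintype.card V` vertices and `k = G.edgeSet.ncard ≥ 1` edges has a
three-dimensional grid drawing `f : V → ℤ³` inside a cube of `N × N × N` grid points with `N³ ≤ C·k·n`: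
different vertices are different points, no vertex lies on the straight segment drawn for an edge of which
it is not an endpoint, and every common point of the segments of two different edges is the position of a
common endpoint of these edges. -/
theorem result :
    ∃ C : ℝ, ∀ (V : Type*) [Fintype V] (G : SimpleGraph V), 1 ≤ G.edgeSet.ncard →
      ∃ (N : ℕ) (f : V → Fin 3 → ℤ),
        (N : ℝ) ^ 3 ≤ C * (G.edgeSet.ncard : ℝ) * (Fintype.card V : ℝ) ∧
        (∀ v i, 0 ≤ f v i ∧ f v i < (N : ℤ)) ∧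
        Function.Injective f ∧
        (∀ u v w : V, G.Adj u v → w ≠ u → w ≠ v →
          (fun i => (f w i : ℝ)) ∉
            segment ℝ (fun i => (f u i : ℝ)) (fun i => (f v i : ℝ))) ∧
        (∀ u v x y : V, G.Adj u v → G.Adj x y → s(u, v) ≠ s(x, y) →
          ∀ z ∈ segment ℝ (fun i => (f u i : ℝ)) (fun i => (f v i : ℝ)) ∩
              segment ℝ (fun i => (f x i : ℝ)) (fun i => (f y i : ℝ)),
            ∃ w : V, (w = u ∨ w = v) ∧ (w = x ∨ w = y) ∧ z = fun i => (f w i : ℝ)) := by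
  classical
  obtain ⟨C, hC⟩ := cube_of regime1 regime2
  refine ⟨C, fun V _ G hk => ?_⟩
  set e : V ≃ Fin (Fintype.card V) := Fintype.equivFin V with he
  set n : ℕ := Fintype.card V with hn
  set H : SimpleGraph (Fin n) := G.comap e.symm with hH
  have hadj : ∀ a b : V, H.Adj (e a) (e b) ↔ G.Adj a b := by
    intro a b
    rw [hH, SimpleGraph.comap_adj, Equiv.symm_apply_apply, Equiv.symm_apply_apply]
  have hcard : H.edgeSet.ncard = G.edgeSet.ncard := by
    have iso : H ≃g G := ⟨e.symm, by intro a b; rw [hH, SimpleGraph.comap_adj]⟩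
    rw [← Nat.card_coe_set_eq, ← Nat.card_coe_set_eq]
    exact Nat.card_congr iso.mapEdgeSet
  obtain ⟨q, hq⟩ : G.edgeSet.Nonempty := by
    rw [← Set.ncard_pos (Set.toFinite _)]
    exact hk
  obtain ⟨u₀, v₀, huv₀⟩ : ∃ u₀ v₀, G.Adj u₀ v₀ := by
    induction q using Sym2.ind with
    | _ a b => exact ⟨a, b, hq⟩
  obtain ⟨N, φ, hvol, h⟩ := hC n H (e u₀) (e v₀) ((hadj u₀ v₀).2 huv₀)
  rw [hcard] at hvol
  have hinj : ∀ u v : V, φ (e u) = φ (e v) → u = v := fun u v huv =>
    e.injective (Fin.ext (h.inj (e u) (e u).2 (e v) (e v).2 huv))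
  have hne : ∀ u v : V, u ≠ v → ((e u : Fin n) : ℕ) ≠ (e v : Fin n) := fun u v huv h' =>
    huv (e.injective (Fin.ext h'))
  have hcol : ∀ u v w : V, G.Adj u v → w ≠ u → w ≠ v → ¬ Col (φ (e u)) (φ (e v)) (φ (e w)) := by
    intro u v w huv h1 h2
    exact h.ncol (e u) (e u).2 (e v) (e v).2 (e w) (e w).2
      ((ext_adj H (e u) (e v)).2 ((hadj u v).2 huv)) (hne w u h1) (hne w v h2)
  have hcop : ∀ a b c d : V, G.Adj a b → G.Adj c d → a ≠ c → a ≠ d → b ≠ c → b ≠ d →
      ¬ Cop (φ (e a)) (φ (e b)) (φ (e c)) (φ (e d)) := by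
    intro a b c d h1 h2 h3 h4 h5 h6
    exact h.ncop (e a) (e a).2 (e b) (e b).2 (e c) (e c).2 (e d) (e d).2
      ((ext_adj H (e a) (e b)).2 ((hadj a b).2 h1)) ((ext_adj H (e c) (e d)).2 ((hadj c d).2 h2))
      (hne a c h3) (hne a d h4) (hne b c h5) (hne b d h6)
  refine ⟨N, fun v => φ (e v), hvol, ?_, ?_, ?_, ?_⟩
  · intro v i
    have hm := h.mem (e v) (e v).2
    unfold Pool.Agent.Grid3D.box at hm
    rw [Fintype.mem_piFinset] at hm
    have := hm i
    rw [Finset.mem_Ico] at this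
    exact this
  · intro u v huv
    exact hinj u v huv
  · intro u v w huv h1 h2 hseg
    exact hcol u v w huv h1 h2 (col_of_mem hseg)
  · rintro u v x y huv hxy hne' z ⟨hz1, hz2⟩
    change z ∈ segment ℝ (rp (φ (e u))) (rp (φ (e v))) at hz1
    change z ∈ segment ℝ (rp (φ (e x))) (rp (φ (e y))) at hz2
    change ∃ w : V, (w = u ∨ w = v) ∧ (w = x ∨ w = y) ∧ z = rp (φ (e w))
    by_cases h1 : u = x
    · subst h1
      have hvy : v ≠ y := by rintro rfl; exact hne' rfl
      exact ⟨u, Or.inl rfl, Or.inl rfl,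
        seg_share (hcol u v y huv (G.ne_of_adj hxy).symm (Ne.symm hvy)) hz1 hz2⟩
    by_cases h2 : u = y
    · subst h2
      have hvx : v ≠ x := by rintro rfl; exact hne' Sym2.eq_swap
      exact ⟨u, Or.inl rfl, Or.inr rfl,
        seg_share (hcol u v x huv (G.ne_of_adj hxy) (Ne.symm hvx)) hz1
          (by rw [segment_symm]; exact hz2)⟩
    by_cases h3 : v = x
    · subst h3
      have huy : u ≠ y := h2
      exact ⟨v, Or.inr rfl, Or.inl rfl,
        seg_share (hcol v u y huv.symm (G.ne_of_adj hxy).symm (Ne.symm huy))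
          (by rw [segment_symm]; exact hz1) hz2⟩
    by_cases h4 : v = y
    · subst h4
      exact ⟨v, Or.inr rfl, Or.inr rfl,
        seg_share (hcol v u x huv.symm (G.ne_of_adj hxy) (Ne.symm h1))
          (by rw [segment_symm]; exact hz1) (by rw [segment_symm]; exact hz2)⟩
    exact absurd (cop_of_mem hz1 hz2) (hcop u v x y huv hxy h1 h2 h3 h4)

end Pool.Agent.Results.MP_325b7c_co.CubeDrawing
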